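import Mathlib

/-!
# Essential spectrum of asymptotic limits

If the `L`-asymptotic limit `A` of a power bounded operator on a separable infinite-dimensional
complex Hilbert space has essential spectrum `{t}` with `t > 0`, then `t = 1`.
-/

set_option autoImplicit false

namespace Pool.Agent.Results.MP_fdf6c3_an.EssSpectrumOne

open Set Filter Topology
open scoped ComplexOrder BoundedContinuousFunction

variable {H : Type} [NormedAddCommGroup H] [InnerProductSpace ℂ H]

/-- The two-sided ideal of compact operators in `B(H)`. -/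
noncomputable def compactIdeal (H : Type) [NormedAddCommGroup H] [InnerProductSpace ℂ H] :
    TwoSidedIdeal (H →L[ℂ] H) :=
  TwoSidedIdeal.mk' {K : H →L[ℂ] H | IsCompactOperator K}
    (by
      change IsCompactOperator (0 : H → H)
      exact isCompactOperator_zero)
    (by
      intro x y hx hy
      change IsCompactOperator ((x : H → H) + (y : H → H))
      exact IsCompactOperator.add hx hy)
    (by
      intro x hx
      change IsCompactOperator (-(x : H → H))
      exact IsCompactOperator.neg hx)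
    (by
      intro x y hy
      change IsCompactOperator ((x : H → H) ∘ (y : H → H))
      exact IsCompactOperator.clm_comp hy x)
    (by
      intro x y hx
      change IsCompactOperator ((x : H → H) ∘ (y : H → H))
      exact IsCompactOperator.comp_clm hx y)

/-- The essential spectrum of `A`: the spectrum of the image of `A` in the Calkin algebra
`B(H)/K(H)`. -/
noncomputable def essentialSpectrum (A : H →L[ℂ] H) : Set ℂ :=
  spectrum ℂ ((compactIdeal H).ringCon.mk' A)

/-- The shift `(a_0, a_1, …) ↦ (a_1, a_2, …)` on bounded sequences. -/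
noncomputable def shift (f : ℕ →ᵇ ℂ) : ℕ →ᵇ ℂ :=
  f.compContinuous ⟨fun n => n + 1, continuous_of_discreteTopology⟩

/-- Banach limits: positive shift-invariant linear functionals on bounded sequences with
`L(1,1,1,…) = 1`. -/
structure IsBanachLimit (L : (ℕ →ᵇ ℂ) →ₗ[ℂ] ℂ) : Prop where
  nonneg : ∀ f : ℕ →ᵇ ℂ, (∀ n, 0 ≤ f n) → 0 ≤ L f
  shift_inv : ∀ f : ℕ →ᵇ ℂ, L (shift f) = L f
  one : L (BoundedContinuousFunction.const ℕ 1) = 1

/-- Power bounded operators. -/
def IsPowerBounded (T : H →L[ℂ] H) : Prop := ∃ M : ℝ, ∀ n : ℕ, ‖T ^ n‖ ≤ M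

/-- `A` is the `L`-asymptotic limit of `T`: for all `x, y` the sequence `⟨T^n x, T^n y⟩` is bounded
and `⟨A x, y⟩` is the value of `L` at it.  (Mathlib's `inner ℂ y x` is linear in `x` and
conjugate-linear in `y`, i.e. it is `⟨x, y⟩` in the usual convention of operator theory.) -/
def IsAsymptoticLimit (L : (ℕ →ᵇ ℂ) →ₗ[ℂ] ℂ) (T A : H →L[ℂ] H) : Prop :=
  ∀ x y : H, ∃ f : ℕ →ᵇ ℂ, (∀ n : ℕ, f n = inner ℂ ((T ^ n) y) ((T ^ n) x)) ∧
    inner ℂ y (A x) = L f

/-! ### Invertibility modulo compact operators -/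

theorem mem_compactIdeal {K : H →L[ℂ] H} : K ∈ compactIdeal H ↔ IsCompactOperator K := by
  unfold compactIdeal
  rw [TwoSidedIdeal.mem_mk']
  rfl

theorem exists_left_inverse {A : H →L[ℂ] H} {z : ℂ} (hz : z ∉ essentialSpectrum A) :
    ∃ D : H →L[ℂ] H, IsCompactOperator (D * (A - z • 1) - 1 : H →L[ℂ] H) := by
  unfold essentialSpectrum at hz
  rw [spectrum.notMem_iff] at hz
  obtain ⟨u, hu⟩ := hz
  obtain ⟨D, hD⟩ := (compactIdeal H).ringCon.mk'_surjective (-(↑u⁻¹))
  refine ⟨D, ?_⟩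
  have h1 : (compactIdeal H).ringCon.mk' (D * (A - z • 1)) =
      (compactIdeal H).ringCon.mk' 1 := by
    have h2 : (compactIdeal H).ringCon.mk' (A - z • 1) = -(u : (compactIdeal H).ringCon.Quotient) := by
      rw [hu, map_sub, neg_sub]
      congr 1
    rw [map_mul, hD, h2, neg_mul_neg, Units.inv_mul, map_one]
  have h3 : (compactIdeal H).ringCon (D * (A - z • 1)) 1 := by
    exact Quotient.exact h1
  rw [TwoSidedIdeal.rel_iff, mem_compactIdeal] at h3
  exact h3

/-! ### Weakly null sequences -/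

/-- A bounded weakly null sequence. -/
def WeaklyNull (x : ℕ → H) : Prop :=
  (∃ C : ℝ, ∀ n, ‖x n‖ ≤ C) ∧ ∀ z : H, Tendsto (fun n => inner ℂ z (x n)) atTop (𝓝 0)

theorem WeaklyNull.map [CompleteSpace H] {x : ℕ → H} (hx : WeaklyNull x) (S : H →L[ℂ] H) :
    WeaklyNull (fun n => S (x n)) := by
  obtain ⟨⟨C, hC⟩, hw⟩ := hx
  refine ⟨⟨‖S‖ * C, fun n => ?_⟩, fun z => ?_⟩
  · exact (S.le_opNorm _).trans (mul_le_mul_of_nonneg_left (hC n) (norm_nonneg _))
  · have := hw (S.adjoint z)
    simpa [ContinuousLinearMap.adjoint_inner_left] using this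

theorem WeaklyNull.compact [CompleteSpace H] {x : ℕ → H} (hx : WeaklyNull x) {K : H →L[ℂ] H}
    (hK : IsCompactOperator K) : Tendsto (fun n => K (x n)) atTop (𝓝 0) := by
  obtain ⟨⟨C, hC⟩, -⟩ := id hx
  have hwK := (hx.map K).2
  have hcomp : IsCompact (closure ((K : H →ₗ[ℂ] H) '' Metric.closedBall 0 C)) :=
    IsCompactOperator.isCompact_closure_image_closedBall hK C
  apply tendsto_of_subseq_tendsto
  intro ns hns
  have hmem : ∀ n, K (x (ns n)) ∈ closure ((K : H →ₗ[ℂ] H) '' Metric.closedBall 0 C) := by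
    intro n
    apply subset_closure
    exact ⟨x (ns n), by simpa using hC (ns n), rfl⟩
  obtain ⟨y, -, φ, hφ, hlim⟩ := hcomp.tendsto_subseq hmem
  have hy : y = 0 := by
    have h1 : Tendsto (fun n => inner ℂ y (K (x (ns (φ n))))) atTop (𝓝 (inner ℂ y y)) :=
      (continuous_const.inner continuous_id).continuousAt.tendsto.comp hlim
    have h2 : Tendsto (fun n => inner ℂ y (K (x (ns (φ n))))) atTop (𝓝 0) :=
      (hwK y).comp (hns.comp hφ.tendsto_atTop)
    exact inner_self_eq_zero.mp (tendsto_nhds_unique h1 h2)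
  rw [hy] at hlim
  exact ⟨φ, hlim⟩

/-- Finite rank projections are compact. -/
theorem isCompactOperator_starProjection (W : Submodule ℂ H) [FiniteDimensional ℂ W] :
    IsCompactOperator (W.starProjection : H →L[ℂ] H) := by
  have : LocallyCompactSpace W := by
    have := FiniteDimensional.proper ℂ W
    infer_instance
  have h1 : IsCompactOperator (W.orthogonalProjectionOnto : H →L[ℂ] W) :=
    isCompactOperator_of_locallyCompactSpace_dom (W.orthogonalProjectionOnto : H →L[ℂ] W)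
  exact IsCompactOperator.clm_comp h1 W.subtypeL


/-- In a separable space there is an increasing sequence of finite-dimensional subspaces whose
orthogonal projections tend strongly to the identity. -/
theorem exists_subspaces (H : Type) [NormedAddCommGroup H] [InnerProductSpace ℂ H]
    [CompleteSpace H] [TopologicalSpace.SeparableSpace H] :
    ∃ W : ℕ → Submodule ℂ H, Monotone W ∧ ∃ _ : ∀ n, FiniteDimensional ℂ (W n),
      ∀ x : H, Tendsto (fun n => (W n).starProjection x) atTop (𝓝 x) := by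
  let d : ℕ → H := TopologicalSpace.denseSeq H
  let W : ℕ → Submodule ℂ H := fun n => Submodule.span ℂ (d '' (Set.Iio n))
  have hmono : Monotone W := by
    intro m n hmn
    apply Submodule.span_mono
    apply Set.image_mono
    exact Set.Iio_subset_Iio hmn
  have hfd : ∀ n, FiniteDimensional ℂ (W n) := by
    intro n
    exact FiniteDimensional.span_of_finite ℂ ((Set.finite_Iio n).image d)
  refine ⟨W, hmono, hfd, fun x => ?_⟩
  apply Submodule.starProjection_tendsto_self W hmono x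
  intro y _
  have hd : Dense (Set.range d) := TopologicalSpace.denseRange_denseSeq H
  have hsub : Set.range d ⊆ ((⨆ n, W n : Submodule ℂ H) : Set H) := by
    rintro _ ⟨n, rfl⟩
    have h1 : d n ∈ W (n + 1) := Submodule.subset_span ⟨n, by simp, rfl⟩
    exact (le_iSup W (n + 1)) h1
  exact closure_mono hsub (hd y)

theorem norm_one_sub_starProjection_le (W : Submodule ℂ H) [FiniteDimensional ℂ W] (x : H) :
    ‖x - W.starProjection x‖ ≤ ‖x‖ := by
  have h := Submodule.norm_sq_eq_add_norm_sq_starProjection x W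
  have h2 : Wᗮ.starProjection x = x - W.starProjection x := by
    have := Submodule.starProjection_add_starProjection_orthogonal (K := W) x
    rw [← this]; simp
  rw [h2] at h
  have h3 : ‖x - W.starProjection x‖ ^ 2 ≤ ‖x‖ ^ 2 := by
    rw [h]; nlinarith [sq_nonneg ‖W.starProjection x‖]
  exact abs_le_of_sq_le_sq' h3 (norm_nonneg _) |>.2


theorem WeaklyNull.tendsto_zero_of_left_inverse [CompleteSpace H] {y : ℕ → H} (hy : WeaklyNull y)
    {D S : H →L[ℂ] H} (hK : IsCompactOperator (D * S - 1 : H →L[ℂ] H))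
    (hS : Tendsto (fun n => S (y n)) atTop (𝓝 0)) : Tendsto y atTop (𝓝 0) := by
  have h1 : Tendsto (fun n => D (S (y n))) atTop (𝓝 0) := by
    have := (D.continuous.tendsto 0).comp hS
    rw [map_zero] at this
    exact this
  have h2 := hy.compact hK
  have h3 := h1.sub h2
  simp only [sub_zero] at h3
  refine h3.congr (fun n => ?_)
  simp

theorem WeaklyNull.sub {x y : ℕ → H} (hx : WeaklyNull x) (hy : WeaklyNull y) :
    WeaklyNull (fun n => x n - y n) := by
  obtain ⟨⟨C, hC⟩, hw⟩ := hx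
  obtain ⟨⟨C', hC'⟩, hw'⟩ := hy
  refine ⟨⟨C + C', fun n => (norm_sub_le _ _).trans (add_le_add (hC n) (hC' n))⟩, fun z => ?_⟩
  have := (hw z).sub (hw' z)
  simpa [inner_sub_right] using this

theorem symm_sq_sub {B : H →L[ℂ] H} (hB : ∀ x y : H, inner ℂ (B x) y = inner ℂ x (B y))
    (r : ℝ) (y : H) :
    ‖B (B y) - ((r ^ 2 : ℝ) : ℂ) • y‖ ^ 2 =
      ‖B (B y)‖ ^ 2 - 2 * r ^ 2 * ‖B y‖ ^ 2 + r ^ 4 * ‖y‖ ^ 2 := by
  have h1 := @norm_sub_sq ℂ H _ _ _ (B (B y)) (((r ^ 2 : ℝ) : ℂ) • y)
  have h2 : inner ℂ (B (B y)) (((r ^ 2 : ℝ) : ℂ) • y) = ((r ^ 2 * ‖B y‖ ^ 2 : ℝ) : ℂ) := by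
    rw [hB, map_smul, inner_smul_right, inner_self_eq_norm_sq_to_K]
    simp
  rw [h1, h2, norm_smul]
  simp only [RCLike.re_to_complex, Complex.ofReal_re, Complex.norm_real, Real.norm_eq_abs,
    abs_pow, sq_abs]
  ring

/-- If `B` is symmetric and `B - r` is left invertible modulo compact operators for every real
`r ≠ 0`, then `B` is the norm limit of `B P_n`. -/
theorem tendsto_norm_tail [CompleteSpace H] {B : H →L[ℂ] H}
    (hB : ∀ x y : H, inner ℂ (B x) y = inner ℂ x (B y))
    {W : ℕ → Submodule ℂ H} (hW : Monotone W) [hfd : ∀ n, FiniteDimensional ℂ (W n)]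
    (hP : ∀ x : H, Tendsto (fun n => (W n).starProjection x) atTop (𝓝 x))
    (h : ∀ r : ℝ, r ≠ 0 → ∃ D : H →L[ℂ] H,
      IsCompactOperator (D * (B - (r : ℂ) • 1) - 1 : H →L[ℂ] H)) :
    Tendsto (fun n => ‖B * (1 - (W n).starProjection)‖) atTop (𝓝 0) := by
  set b : ℕ → ℝ := fun n => ‖B * (1 - (W n).starProjection)‖ with hb
  have hanti : Antitone b := by
    intro m n hmn
    have h1 : (B * (1 - (W n).starProjection) : H →L[ℂ] H) =
        (B * (1 - (W m).starProjection)) * (1 - (W n).starProjection) := by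
      have h2 : ((W m).starProjection : H →L[ℂ] H) * (W n).starProjection =
          (W m).starProjection := by
        ext x
        have := Submodule.starProjection_comp_starProjection_of_le (hW hmn)
        exact DFunLike.congr_fun this x
      rw [mul_assoc]
      congr 1
      rw [sub_mul, mul_sub, mul_sub, one_mul, one_mul, mul_one, h2]
      abel
    have h3 : ‖(1 - (W n).starProjection : H →L[ℂ] H)‖ ≤ 1 := by
      apply ContinuousLinearMap.opNorm_le_bound _ zero_le_one
      intro x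
      rw [one_mul]
      exact norm_one_sub_starProjection_le (W n) x
    calc b n = ‖(B * (1 - (W m).starProjection)) * (1 - (W n).starProjection)‖ := by
          rw [hb, ← h1]
      _ ≤ b m * ‖(1 - (W n).starProjection : H →L[ℂ] H)‖ := norm_mul_le _ _
      _ ≤ b m * 1 := by gcongr
      _ = b m := mul_one _
  have hbdd : BddBelow (Set.range b) := ⟨0, by rintro _ ⟨n, rfl⟩; exact norm_nonneg _⟩
  have hlim : Tendsto b atTop (𝓝 (⨅ n, b n)) := tendsto_atTop_ciInf hanti hbdd
  set r : ℝ := ⨅ n, b n with hr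
  have hr0 : 0 ≤ r := Real.iInf_nonneg (fun n => norm_nonneg _)
  rcases hr0.eq_or_lt with hr0 | hrpos
  · rw [hr0]; exact hlim
  exfalso
  -- almost maximizing vectors
  have hex : ∀ n : ℕ, ∃ x : H, ‖x‖ < 1 ∧
      b n - 1 / ((n : ℝ) + 1) < ‖(B * (1 - (W n).starProjection)) x‖ := by
    intro n
    apply ContinuousLinearMap.exists_lt_apply_of_lt_opNorm
    have : (0 : ℝ) < 1 / ((n : ℝ) + 1) := by positivity
    simp only [hb]; linarith
  choose x hx1 hx2 using hex
  set y : ℕ → H := fun n => x n - (W n).starProjection (x n) with hy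
  have hy1 : ∀ n, ‖y n‖ ≤ 1 := fun n =>
    (norm_one_sub_starProjection_le (W n) (x n)).trans (hx1 n).le
  have hyw : WeaklyNull y := by
    refine ⟨⟨1, hy1⟩, fun z => ?_⟩
    have h1 : Tendsto (fun n => ‖z - (W n).starProjection z‖) atTop (𝓝 0) := by
      have := ((tendsto_const_nhds (x := z)).sub (hP z)).norm
      simpa using this
    apply squeeze_zero_norm _ h1
    intro n
    have h2 : inner ℂ z (y n) = inner ℂ (z - (W n).starProjection z) (x n) := by
      rw [hy]
      simp only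
      rw [inner_sub_right, inner_sub_left, Submodule.inner_starProjection_left_eq_right]
    rw [h2]
    calc ‖inner ℂ (z - (W n).starProjection z) (x n)‖
        ≤ ‖z - (W n).starProjection z‖ * ‖x n‖ := norm_inner_le_norm _ _
      _ ≤ ‖z - (W n).starProjection z‖ * 1 := by gcongr; exact (hx1 n).le
      _ = _ := mul_one _
  -- norms of `B y`
  have hBy1 : ∀ n, ‖B (y n)‖ ≤ b n := by
    intro n
    have h1 : B (y n) = (B * (1 - (W n).starProjection)) (x n) := by simp [hy]
    rw [h1]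
    calc ‖(B * (1 - (W n).starProjection)) (x n)‖ ≤ b n * ‖x n‖ :=
          ContinuousLinearMap.le_opNorm _ _
      _ ≤ b n * 1 := by
          apply mul_le_mul_of_nonneg_left (hx1 n).le (norm_nonneg _)
      _ = b n := mul_one _
  have hBy2 : ∀ n : ℕ, b n - 1 / ((n : ℝ) + 1) ≤ ‖B (y n)‖ := by
    intro n
    have h1 : B (y n) = (B * (1 - (W n).starProjection)) (x n) := by simp [hy]
    rw [h1]
    exact (hx2 n).le
  have hBy : Tendsto (fun n => ‖B (y n)‖) atTop (𝓝 r) := by
    apply tendsto_of_tendsto_of_tendsto_of_le_of_le _ hlim hBy2 hBy1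
    have := hlim.sub (tendsto_one_div_add_atTop_nhds_zero_nat (𝕜 := ℝ))
    simpa using this
  -- limsup of `‖B (B y)‖`
  have hBBy : ∀ δ > 0, ∀ᶠ n in atTop, ‖B (B (y n))‖ ≤ r ^ 2 + δ := by
    intro δ hδ
    have hlim' : ∀ m, Tendsto (fun n => b m * ‖B (y n)‖ + ‖B‖ * ‖(W m).starProjection (B (y n))‖)
        atTop (𝓝 (b m * r + ‖B‖ * 0)) := by
      intro m
      apply Tendsto.add
      · exact hBy.const_mul _
      · apply Tendsto.const_mul
        have := ((hyw.map B).compact (isCompactOperator_starProjection (W m))).norm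
        simpa using this
    obtain ⟨m, hm⟩ : ∃ m, b m * r < r ^ 2 + δ := by
      have h1 : Tendsto (fun m => b m * r) atTop (𝓝 (r * r)) := hlim.mul_const r
      have h2 : ∀ᶠ m in atTop, b m * r < r ^ 2 + δ := by
        apply h1.eventually_lt_const
        nlinarith
      exact h2.exists
    have h3 : ∀ᶠ n in atTop, b m * ‖B (y n)‖ + ‖B‖ * ‖(W m).starProjection (B (y n))‖ <
        r ^ 2 + δ := by
      apply (hlim' m).eventually_lt_const
      rw [mul_zero, add_zero]
      exact hm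
    filter_upwards [h3] with n hn
    have h4 : B (B (y n)) = (B * (1 - (W m).starProjection)) (B (y n)) +
        B ((W m).starProjection (B (y n))) := by simp
    calc ‖B (B (y n))‖ = ‖(B * (1 - (W m).starProjection)) (B (y n)) +
          B ((W m).starProjection (B (y n)))‖ := by rw [← h4]
      _ ≤ ‖(B * (1 - (W m).starProjection)) (B (y n))‖ + ‖B ((W m).starProjection (B (y n)))‖ :=
          norm_add_le _ _
      _ ≤ b m * ‖B (y n)‖ + ‖B‖ * ‖(W m).starProjection (B (y n))‖ :=
          add_le_add (ContinuousLinearMap.le_opNorm _ _) (ContinuousLinearMap.le_opNorm _ _)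
      _ ≤ r ^ 2 + δ := hn.le
  have hu : Tendsto (fun n => B (B (y n)) - ((r ^ 2 : ℝ) : ℂ) • y n) atTop (𝓝 0) := by
    rw [tendsto_zero_iff_norm_tendsto_zero]
    have hsq : Tendsto (fun n => ‖B (B (y n)) - ((r ^ 2 : ℝ) : ℂ) • y n‖ ^ 2) atTop (𝓝 0) := by
      rw [tendsto_order]
      refine ⟨fun a ha => Eventually.of_forall fun n => lt_of_lt_of_le ha (sq_nonneg _), ?_⟩
      intro ε hε
      obtain ⟨δ, hδ, hδ1, hδ2⟩ : ∃ δ : ℝ, 0 < δ ∧ δ ≤ 1 ∧ (4 * r ^ 2 + 1) * δ < ε := by
        refine ⟨min 1 (ε / (2 * (4 * r ^ 2 + 1))), by positivity, min_le_left _ _, ?_⟩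
        calc (4 * r ^ 2 + 1) * min 1 (ε / (2 * (4 * r ^ 2 + 1)))
            ≤ (4 * r ^ 2 + 1) * (ε / (2 * (4 * r ^ 2 + 1))) := by
              gcongr; exact min_le_right _ _
          _ = ε / 2 := by field_simp
          _ < ε := by linarith
      have h1 : ∀ᶠ n in atTop, r ^ 2 - δ < ‖B (y n)‖ ^ 2 := by
        have : Tendsto (fun n => ‖B (y n)‖ ^ 2) atTop (𝓝 (r ^ 2)) := hBy.pow 2
        apply this.eventually_const_lt
        linarith
      filter_upwards [h1, hBBy δ hδ] with n hn1 hn2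
      rw [symm_sq_sub hB]
      have h2 : ‖B (B (y n))‖ ^ 2 ≤ (r ^ 2 + δ) ^ 2 := by gcongr
      have h3 : ‖y n‖ ^ 2 ≤ 1 := by
        have := hy1 n
        nlinarith [norm_nonneg (y n)]
      have h4 : r ^ 4 * ‖y n‖ ^ 2 ≤ r ^ 4 * 1 := by gcongr
      have h5 : 2 * r ^ 2 * (r ^ 2 - δ) ≤ 2 * r ^ 2 * ‖B (y n)‖ ^ 2 := by gcongr
      nlinarith
    have := hsq.sqrt
    simpa using this
  -- conclusion
  obtain ⟨D2, hD2⟩ := h (-r) (neg_ne_zero.mpr hrpos.ne')
  obtain ⟨D1, hD1⟩ := h r hrpos.ne'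
  have hv : WeaklyNull (fun n => (B - (r : ℂ) • 1 : H →L[ℂ] H) (y n)) := hyw.map _
  have hv0 : Tendsto (fun n => (B - (r : ℂ) • 1 : H →L[ℂ] H) (y n)) atTop (𝓝 0) := by
    apply hv.tendsto_zero_of_left_inverse hD2
    refine hu.congr (fun n => ?_)
    simp only [sub_apply, smul_apply, add_apply, one_apply_eq_self, map_sub, map_smul,
      Complex.ofReal_neg, neg_smul, sub_neg_eq_add, smul_add, smul_smul]
    have : ((r ^ 2 : ℝ) : ℂ) = (r : ℂ) * r := by push_cast; ring
    rw [this]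
    abel
  have hy0 : Tendsto y atTop (𝓝 0) := hyw.tendsto_zero_of_left_inverse hD1 hv0
  have hBy0 : Tendsto (fun n => ‖B (y n)‖) atTop (𝓝 0) := by
    have := ((B.continuous.tendsto 0).comp hy0).norm
    rw [map_zero, norm_zero] at this
    exact this
  exact hrpos.ne' (tendsto_nhds_unique hBy hBy0)

/-! ### Trace type estimates -/

theorem norm_sq_starProjection (W : Submodule ℂ H) [FiniteDimensional ℂ W] (y : H) :
    ‖W.starProjection y‖ ^ 2 =
      ∑ i, ‖inner ℂ ((stdOrthonormalBasis ℂ W i : W) : H) y‖ ^ 2 := by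
  have h1 : ‖W.starProjection y‖ = ‖W.orthogonalProjectionOnto y‖ := rfl
  rw [h1, ← (stdOrthonormalBasis ℂ W).sum_sq_norm_inner_right (W.orthogonalProjectionOnto y)]
  apply Finset.sum_congr rfl
  intro i _
  congr 2
  rw [Submodule.coe_inner]
  change inner ℂ _ (W.starProjection y) = _
  rw [← Submodule.inner_starProjection_left_eq_right]
  congr 1
  exact Submodule.starProjection_eq_self_iff.mpr (Subtype.mem _)

theorem sum_norm_sq_le [CompleteSpace H] (W : Submodule ℂ H) [FiniteDimensional ℂ W] {J : ℕ}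
    {e : Fin J → H} (he : Orthonormal ℂ e) (S : H →L[ℂ] H) {M : ℝ} (hM : ‖S‖ ≤ M) :
    ∑ j, ‖W.starProjection (S (e j))‖ ^ 2 ≤ Module.finrank ℂ W * M ^ 2 := by
  simp_rw [norm_sq_starProjection W]
  rw [Finset.sum_comm]
  have h1 : ∀ i, ∑ j, ‖inner ℂ ((stdOrthonormalBasis ℂ W i : W) : H) (S (e j))‖ ^ 2 ≤ M ^ 2 := by
    intro i
    set w : H := ((stdOrthonormalBasis ℂ W i : W) : H) with hw
    have hwn : ‖w‖ = 1 := by
      exact (stdOrthonormalBasis ℂ W).orthonormal.1 i
    have h2 := he.sum_inner_products_le (x := S.adjoint w) (s := Finset.univ)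
    have h3 : ∀ j, ‖inner ℂ w (S (e j))‖ = ‖inner ℂ (e j) (S.adjoint w)‖ := by
      intro j
      rw [ContinuousLinearMap.adjoint_inner_right, norm_inner_symm]
    calc ∑ j, ‖inner ℂ w (S (e j))‖ ^ 2 = ∑ j, ‖inner ℂ (e j) (S.adjoint w)‖ ^ 2 := by
          simp_rw [h3]
      _ ≤ ‖S.adjoint w‖ ^ 2 := h2
      _ ≤ M ^ 2 := by
          gcongr
          calc ‖S.adjoint w‖ ≤ ‖S.adjoint‖ * ‖w‖ := ContinuousLinearMap.le_opNorm _ _
            _ = ‖S‖ := by rw [hwn, mul_one, LinearIsometryEquiv.norm_map]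
            _ ≤ M := hM
  calc ∑ i, ∑ j, ‖inner ℂ ((stdOrthonormalBasis ℂ W i : W) : H) (S (e j))‖ ^ 2
      ≤ ∑ _i : Fin (Module.finrank ℂ W), M ^ 2 := Finset.sum_le_sum fun i _ => h1 i
    _ = Module.finrank ℂ W * M ^ 2 := by simp

theorem abs_inner_le [CompleteSpace H] {B : H →L[ℂ] H}
    (hB : ∀ x y : H, inner ℂ (B x) y = inner ℂ x (B y)) (W : Submodule ℂ H)
    [FiniteDimensional ℂ W] {ε : ℝ} (hε : ‖B * (1 - W.starProjection)‖ ≤ ε) (y : H) :
    ‖inner ℂ y (B y)‖ ≤ 2 * ε * ‖y‖ ^ 2 + ‖B‖ * ‖W.starProjection y‖ ^ 2 := by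
  set p := W.starProjection y with hp
  have hq : ‖y - p‖ ≤ ‖y‖ := norm_one_sub_starProjection_le W y
  have hε0 : 0 ≤ ε := (norm_nonneg _).trans hε
  have h1 : ‖B (y - p)‖ ≤ ε * ‖y‖ := by
    have h2 : B (y - p) = (B * (1 - W.starProjection)) y := by simp [hp]
    rw [h2]
    calc ‖(B * (1 - W.starProjection)) y‖ ≤ ‖B * (1 - W.starProjection)‖ * ‖y‖ :=
          ContinuousLinearMap.le_opNorm _ _
      _ ≤ ε * ‖y‖ := by gcongr
  have hpn : ‖p‖ ≤ ‖y‖ := by
    rw [hp]
    exact (W.starProjection.le_opNorm y).trans (by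
      calc ‖W.starProjection‖ * ‖y‖ ≤ 1 * ‖y‖ := by
            gcongr; exact Submodule.starProjection_norm_le W
        _ = ‖y‖ := one_mul _)
  have h2 : inner ℂ y (B y) = inner ℂ y (B (y - p)) + (inner ℂ (B (y - p)) p + inner ℂ p (B p)) := by
    have e1 : B y = B (y - p) + B p := by rw [← map_add]; congr 1; abel
    have e2 : inner ℂ y (B p) = inner ℂ (B (y - p)) p + inner ℂ p (B p) := by
      rw [hB, ← inner_add_left]; congr 1; abel
    rw [e1, inner_add_right, e2]
  rw [h2]
  calc ‖inner ℂ y (B (y - p)) + (inner ℂ (B (y - p)) p + inner ℂ p (B p))‖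
      ≤ ‖inner ℂ y (B (y - p))‖ + (‖inner ℂ (B (y - p)) p‖ + ‖inner ℂ p (B p)‖) :=
        (norm_add_le _ _).trans (by gcongr; exact norm_add_le _ _)
    _ ≤ ‖y‖ * (ε * ‖y‖) + ((ε * ‖y‖) * ‖y‖ + ‖p‖ * (‖B‖ * ‖p‖)) := by
        gcongr
        · exact (norm_inner_le_norm _ _).trans (by gcongr)
        · exact (norm_inner_le_norm _ _).trans (by gcongr)
        · exact (norm_inner_le_norm _ _).trans (by gcongr; exact B.le_opNorm _)
    _ = 2 * ε * ‖y‖ ^ 2 + ‖B‖ * ‖p‖ ^ 2 := by ring

/-- Orthonormal families of any finite size exist in an infinite-dimensional space. -/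
theorem exists_orthonormal (hH : ¬ FiniteDimensional ℂ H) (J : ℕ) :
    ∃ e : Fin J → H, Orthonormal ℂ e := by
  have h1 : (J : Cardinal) ≤ Module.rank ℂ H := by
    have h2 : Cardinal.aleph0 ≤ Module.rank ℂ H := by
      by_contra h
      rw [not_le] at h
      exact hH (Module.rank_lt_aleph0_iff.mp h)
    exact (Cardinal.natCast_le_aleph0).trans h2
  obtain ⟨v, hv⟩ := exists_linearIndependent_of_le_rank h1
  let V : Submodule ℂ H := Submodule.span ℂ (Set.range v)
  have hfd : FiniteDimensional ℂ V := FiniteDimensional.span_of_finite ℂ (Set.finite_range v)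
  have hrank : Module.finrank ℂ V = J := by
    rw [finrank_span_eq_card hv, Fintype.card_fin]
  let b := stdOrthonormalBasis ℂ V
  refine ⟨fun j => ((b (Fin.cast hrank.symm j) : V) : H), ?_⟩
  have h3 : Orthonormal ℂ (fun j : Fin J => b (Fin.cast hrank.symm j)) :=
    b.orthonormal.comp _ (Fin.cast_injective _)
  exact h3.comp_linearIsometry V.subtypeₗᵢ

/-! ### Banach limits -/

theorem IsBanachLimit.mono {L : (ℕ →ᵇ ℂ) →ₗ[ℂ] ℂ} (hL : IsBanachLimit L) {f : ℕ →ᵇ ℂ} {c : ℝ}
    (hf : ∀ n, ‖f n‖ ≤ c) (hreal : ∀ n, (f n).im = 0) : ‖L f‖ ≤ c := by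
  have h1 : 0 ≤ L (BoundedContinuousFunction.const ℕ (c : ℂ) - f) := by
    apply hL.nonneg
    intro n
    rw [Complex.le_def]
    have h2 : (f n).re ≤ c := (Complex.re_le_norm (f n)).trans (hf n)
    simp [hreal n, h2]
  have h2 : 0 ≤ L (BoundedContinuousFunction.const ℕ (c : ℂ) + f) := by
    apply hL.nonneg
    intro n
    rw [Complex.le_def]
    have h3 : -(f n).re ≤ c := by
      calc -(f n).re ≤ |(f n).re| := neg_le_abs _
        _ ≤ ‖f n‖ := Complex.abs_re_le_norm _
        _ ≤ c := hf n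
    have h4 : 0 ≤ c + (f n).re := by linarith
    simp [hreal n, h4]
  have h3 : L (BoundedContinuousFunction.const ℕ (c : ℂ)) = c := by
    have h4 : BoundedContinuousFunction.const ℕ (c : ℂ) =
        (c : ℂ) • BoundedContinuousFunction.const ℕ (1 : ℂ) := by
      ext n; simp
    rw [h4, map_smul, hL.one, smul_eq_mul, mul_one]
  rw [map_sub, h3, Complex.le_def] at h1
  rw [map_add, h3, Complex.le_def] at h2
  obtain ⟨h1r, h1i⟩ := h1
  obtain ⟨h2r, -⟩ := h2
  simp only [Complex.zero_re, Complex.sub_re, Complex.ofReal_re, Complex.zero_im, Complex.sub_im,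
    Complex.ofReal_im, Complex.add_re] at h1r h1i h2r
  have him : (L f).im = 0 := by linarith
  have : L f = ((L f).re : ℂ) := by
    apply Complex.ext <;> simp [him]
  rw [this, Complex.norm_real, Real.norm_eq_abs, abs_le]
  constructor <;> linarith

/-! ### The main theorem -/

theorem inner_asymptotic_im {L : (ℕ →ᵇ ℂ) →ₗ[ℂ] ℂ} (hL : IsBanachLimit L) {T A : H →L[ℂ] H}
    (hA : IsAsymptoticLimit L T A) (x : H) : (inner ℂ x (A x)).im = 0 := by
  obtain ⟨f, hf, hfx⟩ := hA x x
  have h1 : 0 ≤ L f := by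
    apply hL.nonneg
    intro n
    rw [hf, inner_self_eq_norm_sq_to_K, Complex.le_def]
    constructor
    · simp only [Complex.zero_re, Complex.coe_algebraMap]
      rw [← Complex.ofReal_pow, Complex.ofReal_re]
      positivity
    · simp only [Complex.zero_im, Complex.coe_algebraMap]
      rw [← Complex.ofReal_pow, Complex.ofReal_im]
  rw [hfx]
  rw [Complex.le_def] at h1
  exact h1.2.symm

theorem asymptotic_symmetric {L : (ℕ →ᵇ ℂ) →ₗ[ℂ] ℂ} (hL : IsBanachLimit L) {T A : H →L[ℂ] H}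
    (hA : IsAsymptoticLimit L T A) (x y : H) : inner ℂ (A x) y = inner ℂ x (A y) := by
  have h1 : (A : H →ₗ[ℂ] H).IsSymmetric := by
    rw [LinearMap.isSymmetric_iff_inner_map_self_real]
    intro v
    rw [Complex.conj_eq_iff_im]
    have h2 := inner_asymptotic_im hL hA v
    have h3 : inner ℂ ((A : H →ₗ[ℂ] H) v) v = (starRingEnd ℂ) (inner ℂ v (A v)) := by
      rw [inner_conj_symm]; rfl
    rw [h3, Complex.conj_im, h2, neg_zero]
  exact h1 x y

theorem asymptotic_invariant {L : (ℕ →ᵇ ℂ) →ₗ[ℂ] ℂ} (hL : IsBanachLimit L) {T A : H →L[ℂ] H}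
    (hA : IsAsymptoticLimit L T A) (x : H) (n : ℕ) :
    inner ℂ ((T ^ n) x) (A ((T ^ n) x)) = inner ℂ x (A x) := by
  induction n with
  | zero => simp
  | succ n ih =>
    rw [← ih]
    obtain ⟨f, hf, hfx⟩ := hA ((T ^ n) x) ((T ^ n) x)
    obtain ⟨g, hg, hgx⟩ := hA ((T ^ (n + 1)) x) ((T ^ (n + 1)) x)
    rw [hfx, hgx]
    have h1 : g = shift f := by
      ext k
      have h2 : shift f k = f (k + 1) := rfl
      rw [h2, hf, hg]
      have h3 : (T ^ k) ((T ^ (n + 1)) x) = (T ^ (k + 1)) ((T ^ n) x) := by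
        rw [← mul_apply_eq_comp, ← mul_apply_eq_comp, ← pow_add, ← pow_add]
        congr 2
        ring
      rw [h3]
    rw [h1, hL.shift_inv]

/-- If the `L`-asymptotic limit `A` of a power bounded operator `T` on a separable
infinite-dimensional complex Hilbert space has essential spectrum `{t}` with `t > 0`,
then `t = 1`. -/
theorem result (H : Type) [NormedAddCommGroup H] [InnerProductSpace ℂ H] [CompleteSpace H]
    [TopologicalSpace.SeparableSpace H] (hH : ¬ FiniteDimensional ℂ H)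
    (T A : H →L[ℂ] H) (hT : IsPowerBounded T)
    (L : (ℕ →ᵇ ℂ) →ₗ[ℂ] ℂ) (hL : IsBanachLimit L) (hA : IsAsymptoticLimit L T A)
    (t : ℝ) (ht : 0 < t) (hσ : essentialSpectrum A = {(t : ℂ)}) : t = 1 := by
  by_contra ht1
  obtain ⟨M, hM⟩ := hT
  have hM0 : 0 ≤ M := (norm_nonneg _).trans (hM 0)
  obtain ⟨W, hWmono, hfd, hP⟩ := exists_subspaces H
  set B : H →L[ℂ] H := A - (t : ℂ) • 1 with hBdef
  have hAs := asymptotic_symmetric hL hA
  have hB : ∀ x y : H, inner ℂ (B x) y = inner ℂ x (B y) := by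
    intro x y
    simp only [hBdef, sub_apply, smul_apply, one_apply_eq_self, inner_sub_left, inner_sub_right,
      inner_smul_left, inner_smul_right, hAs x y, Complex.conj_ofReal]
  have htail : Tendsto (fun n => ‖B * (1 - (W n).starProjection)‖) atTop (𝓝 0) := by
    apply tendsto_norm_tail hB hWmono hP
    intro r hr
    have hz : (t : ℂ) + r ∉ essentialSpectrum A := by
      rw [hσ, Set.mem_singleton_iff]
      intro h
      apply hr
      have h2 : (r : ℂ) = 0 := by linear_combination h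
      exact_mod_cast h2
    obtain ⟨D, hD⟩ := exists_left_inverse hz
    refine ⟨D, ?_⟩
    have h3 : B - (r : ℂ) • 1 = A - ((t : ℂ) + r) • 1 := by
      rw [hBdef, add_smul]; abel
    rw [h3]
    exact hD
  -- the choice of ε and of the finite rank projection
  have hs : 0 < |1 - t| := abs_pos.mpr (sub_ne_zero.mpr (Ne.symm ht1))
  set ε : ℝ := |1 - t| * t / (4 * (M ^ 2 + |1 - t|)) with hεdef
  have hε : 0 < ε := by positivity
  have hε2 : 2 * ε * (M ^ 2 + |1 - t|) = |1 - t| * t / 2 := by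
    rw [hεdef]; field_simp; ring
  obtain ⟨n, hn⟩ : ∃ n, ‖B * (1 - (W n).starProjection)‖ < ε :=
    (htail.eventually_lt_const hε).exists
  have hWn := hfd n
  set d : ℝ := (Module.finrank ℂ (W n) : ℝ) with hd
  -- the main estimate
  have key : ∀ J : ℕ, |1 - t| * (t * J - (2 * ε * J + ‖B‖ * d)) ≤
      2 * ε * M ^ 2 * J + ‖B‖ * (d * M ^ 2) := by
    intro J
    obtain ⟨e, he⟩ := exists_orthonormal hH J
    have hen : ∀ j, ‖e j‖ = 1 := he.1
    -- the sequence
    choose f hf hfx using fun j => hA (e j) (e j)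
    let G : ℕ →ᵇ ℂ := ∑ j, (inner ℂ (e j) (A (e j)) • BoundedContinuousFunction.const ℕ (1 : ℂ) -
      (t : ℂ) • f j)
    have hG : ∀ k, G k = ∑ j, inner ℂ ((T ^ k) (e j)) (B ((T ^ k) (e j))) := by
      intro k
      simp only [G, BoundedContinuousFunction.coe_sum, Finset.sum_apply]
      apply Finset.sum_congr rfl
      intro j _
      have h1 : inner ℂ ((T ^ k) (e j)) (B ((T ^ k) (e j))) =
          inner ℂ ((T ^ k) (e j)) (A ((T ^ k) (e j))) - t * f j k := by
        rw [hf, hBdef]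
        simp only [sub_apply, smul_apply, one_apply_eq_self, inner_sub_right, inner_smul_right]
      rw [h1, asymptotic_invariant hL hA]
      simp
    have hLG : L G = (1 - t) * ∑ j, inner ℂ (e j) (A (e j)) := by
      simp only [G, map_sum, map_sub, map_smul, hL.one, Finset.mul_sum]
      apply Finset.sum_congr rfl
      intro j _
      rw [← hfx j]
      simp only [smul_eq_mul]
      ring
    have hTk : ∀ k j, ‖(T ^ k) (e j)‖ ≤ M := by
      intro k j
      calc ‖(T ^ k) (e j)‖ ≤ ‖T ^ k‖ * ‖e j‖ := (T ^ k).le_opNorm _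
        _ ≤ M * 1 := by rw [hen j]; gcongr; exact hM k
        _ = M := mul_one _
    have hGb : ∀ k, ‖G k‖ ≤ 2 * ε * M ^ 2 * J + ‖B‖ * (d * M ^ 2) := by
      intro k
      rw [hG]
      calc ‖∑ j, inner ℂ ((T ^ k) (e j)) (B ((T ^ k) (e j)))‖
          ≤ ∑ j, ‖inner ℂ ((T ^ k) (e j)) (B ((T ^ k) (e j)))‖ := norm_sum_le _ _
        _ ≤ ∑ j, (2 * ε * ‖(T ^ k) (e j)‖ ^ 2 +
              ‖B‖ * ‖(W n).starProjection ((T ^ k) (e j))‖ ^ 2) :=
            Finset.sum_le_sum fun j _ => abs_inner_le hB (W n) hn.le _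
        _ = 2 * ε * ∑ j, ‖(T ^ k) (e j)‖ ^ 2 +
              ‖B‖ * ∑ j, ‖(W n).starProjection ((T ^ k) (e j))‖ ^ 2 := by
            rw [Finset.sum_add_distrib, Finset.mul_sum, Finset.mul_sum]
        _ ≤ 2 * ε * ∑ _j : Fin J, M ^ 2 + ‖B‖ * (d * M ^ 2) := by
            gcongr with j _
            · exact hTk k j
            · exact sum_norm_sq_le (W n) he (T ^ k) (hM k)
        _ = 2 * ε * M ^ 2 * J + ‖B‖ * (d * M ^ 2) := by
            simp; ring
    have hGr : ∀ k, (G k).im = 0 := by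
      intro k
      rw [hG, Complex.im_sum]
      apply Finset.sum_eq_zero
      intro j _
      have h1 : inner ℂ ((T ^ k) (e j)) (B ((T ^ k) (e j))) =
          (starRingEnd ℂ) (inner ℂ ((T ^ k) (e j)) (B ((T ^ k) (e j)))) := by
        rw [inner_conj_symm, hB]
      exact Complex.conj_eq_iff_im.mp h1.symm
    have hLG2 : ‖L G‖ ≤ 2 * ε * M ^ 2 * J + ‖B‖ * (d * M ^ 2) := hL.mono hGb hGr
    -- lower bound
    have hsum : ∑ j, inner ℂ (e j) (A (e j)) = (t * J : ℂ) + ∑ j, inner ℂ (e j) (B (e j)) := by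
      have h1 : ∀ j, inner ℂ (e j) (A (e j)) = (t : ℂ) + inner ℂ (e j) (B (e j)) := by
        intro j
        rw [hBdef]
        simp only [sub_apply, smul_apply, one_apply_eq_self, inner_sub_right, inner_smul_right]
        rw [inner_self_eq_norm_sq_to_K, hen j]
        simp
      simp_rw [h1]
      rw [Finset.sum_add_distrib]
      simp
      ring
    have hBsum : ‖∑ j, inner ℂ (e j) (B (e j))‖ ≤ 2 * ε * J + ‖B‖ * d := by
      calc ‖∑ j, inner ℂ (e j) (B (e j))‖ ≤ ∑ j, ‖inner ℂ (e j) (B (e j))‖ := norm_sum_le _ _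
        _ ≤ ∑ j, (2 * ε * ‖e j‖ ^ 2 + ‖B‖ * ‖(W n).starProjection (e j)‖ ^ 2) :=
            Finset.sum_le_sum fun j _ => abs_inner_le hB (W n) hn.le _
        _ = 2 * ε * J + ‖B‖ * ∑ j, ‖(W n).starProjection (e j)‖ ^ 2 := by
            rw [Finset.sum_add_distrib, Finset.mul_sum]
            congr 1
            simp [hen]
            ring
        _ ≤ 2 * ε * J + ‖B‖ * d := by
            gcongr
            have h1 := sum_norm_sq_le (W n) he (1 : H →L[ℂ] H) (M := 1)
              ContinuousLinearMap.norm_id_le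
            simpa using h1
    have hlow : t * J - (2 * ε * J + ‖B‖ * d) ≤ ‖∑ j, inner ℂ (e j) (A (e j))‖ := by
      rw [hsum]
      have h1 : ‖(t * J : ℂ)‖ = t * J := by
        rw [norm_mul, Complex.norm_real, Real.norm_eq_abs, abs_of_pos ht]
        simp
      have h2 := norm_sub_le ((t * J : ℂ) + ∑ j, inner ℂ (e j) (B (e j)))
        (∑ j, inner ℂ (e j) (B (e j)))
      rw [add_sub_cancel_right, h1] at h2
      linarith
    calc |1 - t| * (t * J - (2 * ε * J + ‖B‖ * d))
        ≤ |1 - t| * ‖∑ j, inner ℂ (e j) (A (e j))‖ := by gcongr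
      _ = ‖L G‖ := by
          rw [hLG, norm_mul]
          congr 1
          have : (1 - t : ℂ) = ((1 - t : ℝ) : ℂ) := by push_cast; ring
          rw [this, Complex.norm_real, Real.norm_eq_abs]
      _ ≤ _ := hLG2
  -- contradiction for large J
  obtain ⟨J, hJ⟩ := exists_nat_gt ((‖B‖ * (d * M ^ 2) + |1 - t| * (‖B‖ * d)) /
    (|1 - t| * t / 2))
  rw [div_lt_iff₀ (by positivity)] at hJ
  have := key J
  have h1 : |1 - t| * (t * J - (2 * ε * J + ‖B‖ * d)) - 2 * ε * M ^ 2 * J =
      J * (|1 - t| * t - 2 * ε * (M ^ 2 + |1 - t|)) - |1 - t| * (‖B‖ * d) := by ring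
  rw [hε2] at h1
  nlinarith


end Pool.Agent.Results.MP_fdf6c3_an.EssSpectrumOne
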